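import Pool.Agent.Q179.HS.Pair

set_option autoImplicit false

/-!
Chains of sign vectors on which the quadratic form of a graph is strictly decreasing.
-/

namespace Pool.Agent.Q179.SP

open Finset Function Pool.Agent.H832R2.JR Pool.Agent.Q179.HS

variable {N : ℕ}

theorem Q_update (A : Fin N → Fin N → ℤ) (hA : ∀ i j, A i j = A j i) (hd : ∀ i, A i i = 0)
    (w : Fin N → Bool) (p : Fin N) (hp : w p = true) :
    Q A (update w p false) = Q A w - 4 * ∑ j, A p j * sgn (w j) := by
  classical
  have h1 : ∀ i, sgn (update w p false i) = sgn (w i) - (if i = p then 2 else 0) := by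
    intro i
    by_cases h : i = p
    · subst h
      simp [sgn, hp]
    · rw [update_of_ne h, if_neg h, sub_zero]
  have h2 : ∀ i j, A i j * (sgn (update w p false i) * sgn (update w p false j)) =
      A i j * (sgn (w i) * sgn (w j)) - (if i = p then 2 * (A p j * sgn (w j)) else 0)
        - (if j = p then 2 * (A p i * sgn (w i)) else 0)
        + (if i = p then (if j = p then 4 * A p p else 0) else 0) := by
    intro i j
    rw [h1, h1]
    split_ifs with h3 h4 h4
    · subst h3; subst h4; ring
    · subst h3; ring
    · subst h4; rw [hA i j]; ring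
    · ring
  unfold Q
  simp only [h2, sum_add_distrib, sum_sub_distrib, sum_ite_eq', mem_univ, if_true]
  have h3 : ∀ i, ∑ j, (if i = p then 2 * (A p j * sgn (w j)) else 0) =
      if i = p then ∑ j, 2 * (A p j * sgn (w j)) else 0 := by
    intro i
    split_ifs
    · rfl
    · simp
  have h4 : ∀ i, ∑ j, (if i = p then (if j = p then 4 * A p p else 0) else 0) =
      if i = p then 4 * A p p else 0 := by
    intro i
    split_ifs
    · simp
    · simp
  simp only [h3, h4, sum_ite_eq', mem_univ, if_true, ← mul_sum]
  rw [hd]
  ring

section

variable (A : Fin N → Fin N → ℤ) (key : Fin N → ℕ) (s : Fin N → Bool)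

/-- the place of a vertex: it is inserted at the left end (`s v = true`) or at the right end -/
def pos (v : Fin N) : ℤ := - sgn (s v) * ((key v : ℤ) + 1)

/-- the later neighbours minus the earlier neighbours -/
def dlt (v : Fin N) : ℤ :=
  ∑ u, A v u * (if key u < key v then sgn (s v) else - sgn (s u))

variable {key s}

theorem pos_inj (hk : Injective key) {u v : Fin N} (h : pos key s u = pos key s v) : u = v := by
  apply hk
  unfold pos sgn at h
  split_ifs at h <;> omega

/-- the comparison of the places -/
theorem pos_lt (u v : Fin N) (h : key u < key v) :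
    (s v = true → pos key s v < pos key s u) ∧ (s v = false → pos key s u < pos key s v) := by
  unfold pos sgn
  constructor <;> intro h1 <;> simp only [h1, if_true, Bool.false_eq_true, if_false] <;>
    split_ifs <;> omega

/-- the sign vector in which the good vertices before `x` are negative -/
noncomputable def W (key : Fin N → ℕ) (s : Fin N → Bool) (x : ℤ) (v : Fin N) : Bool :=
  !decide (0 < dlt A key s v ∧ pos key s v < x)

theorem W_false (x : ℤ) (v : Fin N) :
    W A key s x v = false ↔ 0 < dlt A key s v ∧ pos key s v < x := by
  simp [W]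

theorem lin_ge (hk : Injective key) (h0 : ∀ i j, 0 ≤ A i j) (hd : ∀ i, A i i = 0) (v : Fin N) :
    dlt A key s v ≤ ∑ u, A v u * sgn (W A key s (pos key s v) u) := by
  unfold dlt
  refine sum_le_sum fun u _ => ?_
  by_cases huv : u = v
  · subst huv
    rw [hd, zero_mul, zero_mul]
  refine mul_le_mul_of_nonneg_left ?_ (h0 v u)
  have hne : key u ≠ key v := fun h => huv (hk h)
  have hs : ∀ b : Bool, -1 ≤ sgn b := fun b => by cases b <;> decide
  have hw : pos key s v < pos key s u → W A key s (pos key s v) u = true := by
    intro h
    by_contra hc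
    rw [Bool.not_eq_true, W_false] at hc
    omega
  by_cases h : key u < key v
  · rw [if_pos h]
    cases hv : s v
    · exact hs _
    · rw [hw ((pos_lt u v h).1 hv)]
  · rw [if_neg h]
    have h' : key v < key u := by omega
    cases hu : s u
    · rw [hw ((pos_lt v u h').2 hu)]
      decide
    · exact hs _

variable (hA : ∀ i j, A i j = A j i) (h0 : ∀ i j, 0 ≤ A i j) (hd : ∀ i, A i i = 0)
  (hk : Injective key)
include hA h0 hd hk

theorem step_good (p : Fin N) (hp : 0 < dlt A key s p) :
    Q A (W A key s (pos key s p + 1)) < Q A (W A key s (pos key s p)) := by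
  classical
  have h1 : W A key s (pos key s p) p = true := by
    by_contra hc
    rw [Bool.not_eq_true, W_false] at hc
    omega
  have h2 : W A key s (pos key s p + 1) = update (W A key s (pos key s p)) p false := by
    funext v
    by_cases hv : v = p
    · subst hv
      rw [update_self, W_false]
      exact ⟨hp, by omega⟩
    · rw [update_of_ne hv]
      have h3 : pos key s v ≠ pos key s p := fun h => hv (pos_inj hk h)
      unfold W
      congr 2
      rw [eq_iff_iff]
      constructor
      · rintro ⟨a, b⟩
        exact ⟨a, by omega⟩
      · rintro ⟨a, b⟩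
        exact ⟨a, by omega⟩
  rw [h2, Q_update A hA hd _ p h1]
  have := lin_ge A (s := s) hk h0 hd p
  omega

theorem step_le (x : ℤ) : Q A (W A key s (x + 1)) ≤ Q A (W A key s x) := by
  by_cases h : ∃ p, 0 < dlt A key s p ∧ pos key s p = x
  · obtain ⟨p, hp, rfl⟩ := h
    exact (step_good A hA h0 hd hk p hp).le
  · have h2 : W A key s (x + 1) = W A key s x := by
      funext v
      unfold W
      congr 2
      rw [eq_iff_iff]
      constructor
      · rintro ⟨a, b⟩
        refine ⟨a, ?_⟩
        have h3 : pos key s v ≠ x := fun h' => h ⟨v, a, h'⟩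
        omega
      · rintro ⟨a, b⟩
        exact ⟨a, by omega⟩
    rw [h2]

theorem anti : Antitone fun x : ℤ => Q A (W A key s x) :=
  antitone_int_of_succ_le fun x => step_le A hA h0 hd hk x

/-- the chain -/
theorem chain : ∃ T : Finset (Fin N → Bool),
    (univ.filter fun v => 0 < dlt A key s v).card + 1 ≤ T.card ∧
      ∀ w ∈ T, ∀ w' ∈ T, w ≠ w' → Q A w ≠ Q A w' := by
  classical
  set P := univ.filter fun v => 0 < dlt A key s v with hP
  obtain ⟨top, htop⟩ : ∃ x : ℤ, ∀ v, pos key s v < x := by
    refine ⟨∑ v, |pos key s v| + 1, fun v => ?_⟩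
    have h1 : |pos key s v| ≤ ∑ v, |pos key s v| :=
      single_le_sum (f := fun v => |pos key s v|) (fun i _ => abs_nonneg _) (mem_univ v)
    have h2 := le_abs_self (pos key s v)
    omega
  have hlt : ∀ p ∈ P, ∀ x, pos key s p < x →
      Q A (W A key s x) < Q A (W A key s (pos key s p)) := by
    intro p hp x hx
    refine lt_of_le_of_lt (anti A hA h0 hd hk (s := s) (show pos key s p + 1 ≤ x by omega)) ?_
    exact step_good A hA h0 hd hk p (mem_filter.1 hp).2
  set f : Fin N → (Fin N → Bool) := fun p => W A key s (pos key s p) with hf
  have hinj : ∀ p ∈ P, ∀ q ∈ P, p ≠ q → Q A (f p) ≠ Q A (f q) := by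
    intro p hp q hq hpq
    rcases lt_trichotomy (pos key s p) (pos key s q) with h | h | h
    · exact (hlt p hp _ h).ne'
    · exact absurd (pos_inj hk h) hpq
    · exact (hlt q hq _ h).ne
  refine ⟨insert (W A key s top) (P.image f), ?_, ?_⟩
  · rw [card_insert_of_notMem, card_image_of_injOn]
    · intro p hp q hq h
      by_contra hne
      exact hinj p hp q hq hne (by rw [h])
    · intro h
      rw [mem_image] at h
      obtain ⟨p, hp, h1⟩ := h
      have := hlt p hp top (htop p)
      rw [← h1] at this
      exact lt_irrefl _ this
  · intro w hw w' hw' hne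
    rw [mem_insert, mem_image] at hw hw'
    rcases hw with rfl | ⟨p, hp, rfl⟩ <;> rcases hw' with rfl | ⟨q, hq, rfl⟩
    · exact absurd rfl hne
    · exact (hlt q hq top (htop q)).ne
    · exact (hlt p hp top (htop p)).ne'
    · exact hinj p hp q hq fun h => hne (by rw [h])

end

/-- greedy choice of the signs -/
theorem exists_signs (A : Fin N → Fin N → ℤ) (h0 : ∀ i j, 0 ≤ A i j) (hd : ∀ i, A i i = 0)
    (key : Fin N → ℕ) (hk : Injective key) : ∃ s : Fin N → Bool, ∀ v, (∃ u, 0 < A v u ∧ key u < key v) →
      dlt A key s v ≠ 0 := by
  classical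
  obtain ⟨K, hK⟩ : ∃ K, ∀ v, key v < K := by
    refine ⟨∑ v, key v + 1, fun v => ?_⟩
    have h1 : key v ≤ ∑ v, key v :=
      single_le_sum (f := key) (fun i _ => Nat.zero_le _) (mem_univ v)
    omega
  have main : ∀ m : ℕ, ∃ s : Fin N → Bool, ∀ v, K ≤ key v + m →
      (∃ u, 0 < A v u ∧ key u < key v) → dlt A key s v ≠ 0 := by
    intro m
    induction m with
    | zero =>
      refine ⟨fun _ => true, fun v hv => ?_⟩
      have := hK v
      omega
    | succ m ih =>
      obtain ⟨s, hs⟩ := ih
      by_cases hv0 : ∃ v, key v + (m + 1) = K
      · obtain ⟨v₀, hv₀⟩ := hv0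
        have hother : ∀ b : Bool, ∀ v, K ≤ key v + m →
            dlt A key (update s v₀ b) v = dlt A key s v := by
          intro b v hv
          unfold dlt
          refine sum_congr rfl fun u _ => ?_
          have h1 : v ≠ v₀ := by
            rintro rfl
            omega
          by_cases hu : key u < key v
          · rw [if_pos hu, if_pos hu, update_of_ne h1]
          · have h2 : u ≠ v₀ := by
              rintro rfl
              omega
            rw [if_neg hu, if_neg hu, update_of_ne h2]
        have hsum : ∀ b : Bool, dlt A key (update s v₀ b) v₀ =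
            sgn b * (∑ u, if key u < key v₀ then A v₀ u else 0) +
              ∑ u, (if key u < key v₀ then 0 else - (A v₀ u * sgn (s u))) := by
          intro b
          unfold dlt
          rw [mul_sum, ← sum_add_distrib]
          refine sum_congr rfl fun u _ => ?_
          by_cases hu : key u < key v₀
          · rw [if_pos hu, if_pos hu, if_pos hu, update_self]
            ring
          · rw [if_neg hu, if_neg hu, if_neg hu]
            by_cases hu2 : u = v₀
            · subst hu2
              rw [hd]
              ring
            · rw [update_of_ne hu2]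
              ring
        by_cases hnear : ∃ u, 0 < A v₀ u ∧ key u < key v₀
        · have hD : 0 < ∑ u, if key u < key v₀ then A v₀ u else 0 := by
            obtain ⟨u, hu1, hu2⟩ := hnear
            refine sum_pos' (fun i _ => ?_) ⟨u, mem_univ u, by rwa [if_pos hu2]⟩
            split_ifs
            · exact h0 _ _
            · exact le_rfl
          obtain ⟨b, hb⟩ : ∃ b : Bool, dlt A key (update s v₀ b) v₀ ≠ 0 := by
            by_contra hc
            push Not at hc
            have e1 := hc true
            have e2 := hc false
            rw [hsum] at e1 e2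
            simp only [sgn, if_true, Bool.false_eq_true, if_false] at e1 e2
            linarith
          refine ⟨update s v₀ b, fun v hv hnv => ?_⟩
          by_cases hvv : v = v₀
          · rw [hvv]
            exact hb
          · have h3 : K ≤ key v + m := by
              have h4 : key v ≠ key v₀ := fun h => hvv (hk h)
              omega
            rw [hother b v h3]
            exact hs v h3 hnv
        · refine ⟨s, fun v hv hnv => ?_⟩
          by_cases hvv : v = v₀
          · rw [hvv] at hnv
            exact absurd hnv hnear
          · have h4 : key v ≠ key v₀ := fun h => hvv (hk h)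
            exact hs v (by omega) hnv
      · refine ⟨s, fun v hv => hs v ?_⟩
        by_contra hc
        exact hv0 ⟨v, by omega⟩
  obtain ⟨s, hs⟩ := main K
  exact ⟨s, fun v hv => hs v (by omega) hv⟩

end Pool.Agent.Q179.SP
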