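import Pool.Agent.Q179.SP.Chain

set_option autoImplicit false

/-!
Many values of the quadratic form of a graph: the components.
-/

namespace Pool.Agent.Q179.SP

open Finset Function Pool.Agent.H832R2.JR Pool.Agent.Q179.HS

variable {N : ℕ}

open Classical in
/-- the adjacency matrix -/
noncomputable def mat (H : SimpleGraph (Fin N)) (i j : Fin N) : ℤ := if H.Adj i j then 1 else 0

theorem mat_symm (H : SimpleGraph (Fin N)) (i j : Fin N) : mat H i j = mat H j i := by
  unfold mat
  by_cases h : H.Adj i j
  · rw [if_pos h, if_pos h.symm]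
  · rw [if_neg h, if_neg fun h' => h h'.symm]

theorem mat_nonneg (H : SimpleGraph (Fin N)) (i j : Fin N) : 0 ≤ mat H i j := by
  unfold mat
  split_ifs <;> norm_num

theorem mat_diag (H : SimpleGraph (Fin N)) (i : Fin N) : mat H i i = 0 := by
  unfold mat
  rw [if_neg (H.irrefl)]

theorem mat_pos (H : SimpleGraph (Fin N)) (i j : Fin N) : 0 < mat H i j ↔ H.Adj i j := by
  unfold mat
  split_ifs with h
  · exact ⟨fun _ => h, fun _ => one_pos⟩
  · exact ⟨fun h' => absurd h' (lt_irrefl _), fun h' => absurd h' h⟩

/-- the root of the component -/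
noncomputable def root (H : SimpleGraph (Fin N)) (v : Fin N) : Fin N :=
  Quot.out (H.connectedComponentMk v)

theorem root_mk (H : SimpleGraph (Fin N)) (v : Fin N) :
    H.connectedComponentMk (root H v) = H.connectedComponentMk v := Quot.out_eq _

/-- the key -/
noncomputable def ky (H : SimpleGraph (Fin N)) (v : Fin N) : ℕ := N * H.dist v (root H v) + v

theorem ky_inj (H : SimpleGraph (Fin N)) : Injective (ky H) := by
  intro u v h
  unfold ky at h
  have h1 := congrArg (fun x => x % N) h
  simp only [Nat.mul_add_mod, Nat.mod_eq_of_lt u.2, Nat.mod_eq_of_lt v.2] at h1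
  exact Fin.ext h1

theorem near (H : SimpleGraph (Fin N)) (v : Fin N) (hv : v ≠ root H v) :
    ∃ u, 0 < mat H v u ∧ ky H u < ky H v := by
  have hr : H.Reachable v (root H v) :=
    SimpleGraph.ConnectedComponent.exact (root_mk H v).symm
  generalize hrr : root H v = r at hv hr
  obtain ⟨p, hp⟩ := hr.exists_walk_length_eq_dist
  cases p with
  | nil => exact absurd rfl hv
  | @cons _ u _ h q =>
    refine ⟨u, (mat_pos H v u).2 h, ?_⟩
    have h1 : root H u = root H v := by
      unfold root
      rw [SimpleGraph.ConnectedComponent.sound h.reachable]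
    have h2 : H.dist u r ≤ q.length := SimpleGraph.dist_le q
    rw [SimpleGraph.Walk.length_cons] at hp
    unfold ky
    rw [h1, hrr, ← hp]
    have h3 : N * H.dist u r ≤ N * q.length := Nat.mul_le_mul_left _ h2
    have h4 := u.2
    have h5 : N * (q.length + 1) = N * q.length + N := by ring
    omega

theorem half_card {P M c : ℕ} (h : c ≤ P + M + 1) : c / 2 ≤ max P M := by
  rcases le_total P M with h1 | h1
  · rw [max_eq_right h1]; omega
  · rw [max_eq_left h1]; omega

open Classical in
/-- The quadratic form of a graph takes many values. -/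
theorem components (H : SimpleGraph (Fin N)) : ∃ T : Finset (Fin N → Bool),
    (∑ c : H.ConnectedComponent, Nat.card c.supp / 2) + 1 ≤ T.card ∧
      ∀ w ∈ T, ∀ w' ∈ T, w ≠ w' → Q (mat H) w ≠ Q (mat H) w' := by
  obtain ⟨s, hs⟩ := exists_signs (mat H) (mat_nonneg H) (mat_diag H) (ky H) (ky_inj H)
  set mk := H.connectedComponentMk with hmk
  set P : H.ConnectedComponent → Finset (Fin N) :=
    fun c => univ.filter fun v => mk v = c ∧ 0 < dlt (mat H) (ky H) s v with hP
  set M : H.ConnectedComponent → Finset (Fin N) :=
    fun c => univ.filter fun v => mk v = c ∧ dlt (mat H) (ky H) s v < 0 with hM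
  set ε : H.ConnectedComponent → Bool := fun c => decide ((P c).card < (M c).card) with hε
  set s' : Fin N → Bool := fun v => xor (ε (mk v)) (s v) with hs'
  have hsg : ∀ a b : Bool, sgn (xor a b) = (if a then -1 else 1) * sgn b := by decide
  have hd : ∀ v, dlt (mat H) (ky H) s' v =
      (if ε (mk v) then -1 else 1) * dlt (mat H) (ky H) s v := by
    intro v
    unfold dlt
    rw [mul_sum]
    refine sum_congr rfl fun u _ => ?_
    by_cases h : H.Adj v u
    · have h1 : mk u = mk v := SimpleGraph.ConnectedComponent.sound h.symm.reachable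
      rw [hs']
      simp only [h1, hsg]
      split_ifs <;> ring
    · have h1 : mat H v u = 0 := by
        unfold mat
        rw [if_neg h]
      rw [h1]
      ring
  obtain ⟨T, hT, hT'⟩ := chain (mat H) (s := s') (mat_symm H) (mat_nonneg H) (mat_diag H) (ky_inj H)
  refine ⟨T, le_trans (Nat.add_le_add_right ?_ 1) hT, hT'⟩
  have h1 : (univ.filter fun v => 0 < dlt (mat H) (ky H) s' v).card =
      ∑ c : H.ConnectedComponent,
        ((univ.filter fun v => 0 < dlt (mat H) (ky H) s' v).filter fun v => mk v = c).card :=
    card_eq_sum_card_fiberwise fun v _ => mem_univ _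
  rw [h1]
  refine sum_le_sum fun c _ => ?_
  have h2 : ((univ.filter fun v => 0 < dlt (mat H) (ky H) s' v).filter fun v => mk v = c) =
      if ε c then M c else P c := by
    ext v
    rw [mem_filter, mem_filter, hd]
    cases hc : ε c
    · simp only [Bool.false_eq_true, if_false, hP, mem_filter, mem_univ, true_and]
      constructor
      · rintro ⟨h3, rfl⟩
        rw [hc] at h3
        simp at h3
        exact ⟨rfl, h3⟩
      · rintro ⟨rfl, h3⟩
        rw [hc]
        simp [h3]
    · simp only [if_true, hM, mem_filter, mem_univ, true_and]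
      constructor
      · rintro ⟨h3, rfl⟩
        rw [hc] at h3
        simp at h3
        exact ⟨rfl, h3⟩
      · rintro ⟨rfl, h3⟩
        rw [hc]
        simp [h3]
  rw [h2]
  have h3 : Nat.card c.supp ≤ (P c).card + (M c).card + 1 := by
    have h4 : Nat.card c.supp = (univ.filter fun v => mk v = c).card := by
      rw [Nat.card_eq_fintype_card, Fintype.card_subtype]
      refine congrArg card (filter_congr fun v _ => ?_)
      rw [SimpleGraph.ConnectedComponent.mem_supp_iff]
    rw [h4]
    have h5 : (univ.filter fun v => mk v = c) ⊆ insert (Quot.out c) (P c ∪ M c) := by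
      intro v hv
      rw [mem_filter] at hv
      rw [mem_insert, mem_union]
      by_cases hr : v = Quot.out c
      · exact Or.inl hr
      · right
        have h6 : v ≠ root H v := by
          unfold root
          rw [← hmk, hv.2]
          exact hr
        have h7 := hs v (near H v h6)
        rcases lt_or_gt_of_ne h7 with h8 | h8
        · right
          rw [hM, mem_filter]
          exact ⟨mem_univ _, hv.2, h8⟩
        · left
          rw [hP, mem_filter]
          exact ⟨mem_univ _, hv.2, h8⟩
    refine (card_le_card h5).trans ((card_insert_le _ _).trans ?_)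
    exact Nat.add_le_add_right (card_union_le _ _) 1
  refine (half_card h3).trans ?_
  cases hc : ε c
  · rw [hε] at hc
    simp only [decide_eq_false_iff_not, not_lt] at hc
    rw [max_eq_left hc]
    simp
  · rw [hε] at hc
    simp only [decide_eq_true_eq] at hc
    rw [max_eq_right hc.le]
    simp

end Pool.Agent.Q179.SP
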