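import Pool.Agent.Q179.SP.Comp
import Pool.Agent.Q179.HS.Planar

set_option autoImplicit false

/-!
Knots with a given shadow which are separated by invariants of order two.
-/

namespace Pool.Agent.Q179.SP

open Finset Function Pool.Agent.H832R2.JR Pool.Agent.Q179.HS LaurentPolynomial
  Pool.Agent.H832R3.VJ Pool.Agent.W642.RV

variable {N : ℕ}

/-- The interlacement graph of a shadow: the vertices are the crossings, two crossings are adjacent if
their chords cross.  Its connected components with at least two vertices correspond to the prime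
factors of the shadow, the other ones to the nugatory crossings. -/
def inter (G : GaussWord N) : SimpleGraph (Fin N) where
  Adj i j := Crosses G i j
  symm := ⟨fun i j h => Pool.Agent.H832R2.JR.crosses_symm G i j h⟩
  loopless := ⟨fun i h => not_crosses_self G i h⟩

theorem mat_inter (G : GaussWord N) : mat (inter G) = adjm G := by
  funext i j
  unfold mat adjm inter
  by_cases h : Crosses G i j
  · simp [h]
  · simp [h]

open Classical in
/-- the sum of the integer parts of the halves of the numbers of crossings of the prime factors -/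
noncomputable def halves (G : GaussWord N) : ℕ :=
  ∑ c : (inter G).ConnectedComponent, Nat.card c.supp / 2

theorem mom_ne (G : GaussWord N) (w w' : Fin N → Bool) (h : Q (adjm G) w ≠ Q (adjm G) w') :
    mom G w ≠ mom G w' := by
  intro h1
  rcases N with _ | N
  · exact h (by rw [Subsingleton.elim w w'])
  obtain ⟨c, hc⟩ := mom_fibre G ⟨0, Nat.succ_pos N⟩ (fun _ => True) (mom G w)
  exact h ((hc w trivial rfl).trans (hc w' trivial h1.symm).symm)

theorem spectrum (G : GaussWord N) : ∃ T : Finset (Fin N → Bool), halves G + 1 ≤ T.card ∧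
    ∀ w ∈ T, ∀ w' ∈ T, w ≠ w' → mom G w ≠ mom G w' := by
  obtain ⟨T, hT, hT'⟩ := components (inter G)
  refine ⟨T, hT, fun w hw w' hw' hne => mom_ne G w w' ?_⟩
  rw [← mat_inter]
  exact hT' w hw w' hw' hne

theorem separated_family (G : GaussWord N) (e : Fin N → Bool) : ∃ T : Finset (Fin N → Bool),
    halves G + 1 ≤ T.card ∧
      ∀ w ∈ T, ∀ w' ∈ T, w ≠ w' → Separated 2 (dia G e w) (dia G e w') := by
  obtain ⟨T, hT, hT'⟩ := spectrum G
  refine ⟨T, hT, fun w hw w' hw' hne => ?_⟩
  by_contra hc
  exact hT' w hw w' hw' hne (mom_eq_of_not_separated G G e _ e _ hc)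

theorem halves_prime (G : GaussWord N) (h : (inter G).Connected) : halves G = N / 2 := by
  classical
  unfold halves
  have := h.preconnected.subsingleton_connectedComponent
  obtain ⟨v⟩ := h.nonempty
  rw [Fintype.sum_subsingleton _ ((inter G).connectedComponentMk v)]
  congr 1
  have h1 : ((inter G).connectedComponentMk v).supp = Set.univ := by
    ext u
    rw [SimpleGraph.ConnectedComponent.mem_supp_iff]
    exact ⟨fun _ => Set.mem_univ _, fun _ => Subsingleton.elim _ _⟩
  rw [h1]
  simp

theorem halves_third (G : GaussWord N) (h : ∀ i, ∃ j, Crosses G i j) : N ≤ 3 * halves G := by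
  classical
  unfold halves
  have h1 : N = ∑ c : (inter G).ConnectedComponent, Nat.card c.supp := by
    have h2 : (univ : Finset (Fin N)).card = ∑ c : (inter G).ConnectedComponent,
        ((univ : Finset (Fin N)).filter fun v => (inter G).connectedComponentMk v = c).card :=
      card_eq_sum_card_fiberwise fun v _ => mem_univ _
    rw [card_univ, Fintype.card_fin] at h2
    refine h2.trans ?_
    refine sum_congr rfl fun c _ => ?_
    rw [Nat.card_eq_fintype_card, Fintype.card_subtype]
    refine congrArg card (filter_congr fun v _ => ?_)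
    rw [SimpleGraph.ConnectedComponent.mem_supp_iff]
  refine h1.le.trans ?_
  rw [mul_sum]
  refine sum_le_sum fun c _ => ?_
  have h2 : 2 ≤ Nat.card c.supp := by
    obtain ⟨v, hv⟩ := c.exists_rep
    obtain ⟨u, hu⟩ := h v
    have hadj : (inter G).Adj v u := hu
    have h3 : v ∈ c.supp := by
      rw [SimpleGraph.ConnectedComponent.mem_supp_iff]
      exact hv
    have h4 : u ∈ c.supp := by
      rw [SimpleGraph.ConnectedComponent.mem_supp_iff, ← hv]
      exact SimpleGraph.ConnectedComponent.sound hadj.symm.reachable
    have h5 : v ≠ u := hadj.ne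
    have : Nontrivial c.supp := ⟨⟨⟨v, h3⟩, ⟨u, h4⟩, fun h => h5 (congrArg Subtype.val h)⟩⟩
    exact Finite.one_lt_card
  omega

end Pool.Agent.Q179.SP
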