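import Pool.Agent.Q179.SP.Knots

set_option autoImplicit false

/-!
The shadows of the torus knots `T(2, N)` and of the connected sums of trefoils.
-/

namespace Pool.Agent.Q179.SP

open Finset Function Pool.Agent.H832R2.JR Pool.Agent.Q179.HS

/-- an upper bound for the number of values -/
theorem card_range_le {α : Type} (f : α → ℤ) (k : ℕ) (g : ℕ → ℤ)
    (h : ∀ a, ∃ m ≤ k, f a = g m) : Nat.card (Set.range f) ≤ k + 1 := by
  have h1 : Set.range f ⊆ g '' (Set.Iic k) := by
    rintro _ ⟨a, rfl⟩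
    obtain ⟨m, hm, hm'⟩ := h a
    exact ⟨m, hm, hm'.symm⟩
  have h2 : (Set.Iic k).Finite := Set.finite_Iic k
  calc Nat.card (Set.range f) ≤ Nat.card (g '' (Set.Iic k)) :=
        Nat.card_mono (h2.image g) h1
    _ ≤ Nat.card (Set.Iic k) := Nat.card_image_le h2
    _ = k + 1 := by simp

/-- a lower bound for the number of values -/
theorem card_range_ge {α : Type} [Finite α] (f : α → ℤ) (k : ℕ) (T : Finset α)
    (hT : k ≤ T.card) (h : ∀ w ∈ T, ∀ w' ∈ T, w ≠ w' → f w ≠ f w') :
    k ≤ Nat.card (Set.range f) := by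
  classical
  have h1 : (T.image f).card = T.card := card_image_of_injOn fun w hw w' hw' h' => by
    by_contra hne
    exact h w hw w' hw' hne h'
  have h2 : ((T.image f : Finset ℤ) : Set ℤ) ⊆ Set.range f := by
    intro x hx
    rw [mem_coe, mem_image] at hx
    obtain ⟨w, _, rfl⟩ := hx
    exact ⟨w, rfl⟩
  have h3 := Nat.card_mono (Set.finite_range f) h2
  rw [Nat.card_coe_set_eq, Set.ncard_coe_finset, h1] at h3
  exact hT.trans h3

/-- the Gauss word `1 2 … N 1 2 … N` -/
def torusWord (N : ℕ) : GaussWord N where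
  toFun x := if x.2 then ⟨N + x.1, by have := x.1.2; omega⟩ else ⟨x.1, by have := x.1.2; omega⟩
  invFun y := if h : (y : ℕ) < N then (⟨y, h⟩, false) else (⟨y - N, by have := y.2; omega⟩, true)
  left_inv := by
    rintro ⟨c, b⟩
    cases b
    · simp
    · simp
  right_inv := by
    intro y
    by_cases h : (y : ℕ) < N
    · simp [h]
    · simp only [h, dif_neg, not_false_iff, if_true]
      apply Fin.ext
      simp only
      omega

theorem torus_crosses (N : ℕ) (i j : Fin N) : Crosses (torusWord N) i j ↔ i ≠ j := by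
  have h1 : ∀ c : Fin N, (torusWord N (c, false) : ℕ) = c := fun c => rfl
  have h2 : ∀ c : Fin N, (torusWord N (c, true) : ℕ) = N + c := fun c => rfl
  unfold Crosses Pool.Agent.H832R2.JR.Btw
  rw [h1, h1, h2, h2, Ne, Fin.ext_iff]
  have := i.2
  have := j.2
  omega

theorem torus_plane (k : ℕ) : PlaneCriterion (torusWord (2 * k + 1)) := by
  simp only [PlaneCriterion, torus_crosses]
  refine ⟨?_, ?_, fun _ => false, ?_⟩
  · intro i
    rw [card_sub _ (univ.erase i) (by
      intro j
      rw [mem_erase]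
      exact ⟨fun h => ⟨h.symm, mem_univ _⟩, fun h => h.1.symm⟩)]
    rw [card_erase_of_mem (mem_univ _), card_univ, Fintype.card_fin]
    exact ⟨k, by omega⟩
  · intro i j h h'
    exact absurd h h'
  · intro i j hij
    rw [card_sub _ ((univ.erase i).erase j) (by
      intro l
      rw [mem_erase, mem_erase]
      exact ⟨fun h => ⟨h.2.symm, h.1.symm, mem_univ _⟩, fun h => ⟨h.2.1.symm, h.1.symm⟩⟩)]
    rw [card_erase_of_mem (mem_erase.2 ⟨hij.symm, mem_univ _⟩), card_erase_of_mem (mem_univ _),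
      card_univ, Fintype.card_fin]
    simp only [ne_eq, not_true_eq_false, iff_false, Nat.not_even_iff_odd]
    have : k ≠ 0 := by
      rintro rfl
      apply hij
      have := i.2
      have := j.2
      apply Fin.ext
      omega
    exact ⟨k - 1, by omega⟩

theorem torus_Q (N : ℕ) (w : Fin N → Bool) :
    Q (adjm (torusWord N)) w = (∑ i, sgn (w i)) ^ 2 - N := by
  classical
  unfold Q adjm
  have h1 : ∀ i j, (if Crosses (torusWord N) i j then (1 : ℤ) else 0) * (sgn (w i) * sgn (w j)) =
      sgn (w i) * sgn (w j) - if j = i then 1 else 0 := by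
    intro i j
    by_cases h : i = j
    · subst h
      rw [if_neg (not_crosses_self _ _), if_pos rfl, sgn_sq]
      ring
    · rw [if_pos ((torus_crosses N i j).2 h), if_neg (Ne.symm h)]
      ring
  simp only [h1, sum_sub_distrib, sum_ite_eq', mem_univ, if_true, sum_const, card_univ,
    Fintype.card_fin]
  rw [sq, sum_mul_sum]
  simp

theorem torus_values (k : ℕ) : Nat.card (Set.range (mom (torusWord (2 * k + 1)))) = k + 1 := by
  apply le_antisymm
  · obtain ⟨K, hK⟩ := second_moment (torusWord (2 * k + 1)) ⟨0, by omega⟩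
    refine card_range_le _ k (fun m => K - 12 * ((2 * (m : ℤ) + 1) ^ 2 - (2 * k + 1 : ℕ))) ?_
    intro w
    have h1 : mom (torusWord (2 * k + 1)) w = K - 12 * Q (adjm (torusWord (2 * k + 1))) w := hK w
    rw [torus_Q] at h1
    set p := (univ.filter fun i => w i = true).card with hp
    have h2 : ∑ i, sgn (w i) = 2 * (p : ℤ) - (2 * k + 1 : ℕ) := by
      have h3 : ∀ i, sgn (w i) = 2 * (if w i = true then 1 else 0) - 1 := by
        intro i
        unfold sgn
        split_ifs <;> norm_num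
      simp only [h3, sum_sub_distrib, ← mul_sum, sum_const, card_univ, Fintype.card_fin]
      rw [← sum_filter, sum_const, ← hp]
      simp
    have hp2 : p ≤ 2 * k + 1 := by
      have := card_le_univ (univ.filter fun i => w i = true)
      rwa [Fintype.card_fin] at this
    rw [h2] at h1
    by_cases hpk : p ≤ k
    · refine ⟨k - p, by omega, ?_⟩
      rw [h1]
      push_cast [hpk]
      ring
    · refine ⟨p - k - 1, by omega, ?_⟩
      rw [h1]
      have : ((p - k - 1 : ℕ) : ℤ) = p - k - 1 := by omega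
      rw [this]
      push_cast
      ring
  · obtain ⟨T, hT, hT'⟩ := spectrum (torusWord (2 * k + 1))
    refine card_range_ge _ _ T (le_trans ?_ hT) hT'
    rw [halves_prime]
    · omega
    · have hne : Nonempty (Fin (2 * k + 1)) := ⟨⟨0, by omega⟩⟩
      refine ⟨fun i j => ?_⟩
      by_cases h : i = j
      · subst h
        exact SimpleGraph.Reachable.refl _
      · have : (inter (torusWord (2 * k + 1))).Adj i j := (torus_crosses _ i j).2 h
        exact this.reachable

/-- the Gauss word `1 2 3 1 2 3 4 5 6 4 5 6 …` -/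
def trefoils (k : ℕ) : GaussWord (k * 3) where
  toFun x := ⟨6 * ((x.1 : ℕ) / 3) + (if x.2 then 3 else 0) + (x.1 : ℕ) % 3, by
    have := x.1.2
    split_ifs <;> omega⟩
  invFun y := (⟨3 * ((y : ℕ) / 6) + (y : ℕ) % 3, by have := y.2; omega⟩, decide (3 ≤ (y : ℕ) % 6))
  left_inv := by
    rintro ⟨c, b⟩
    cases b
    · apply Prod.ext
      · apply Fin.ext
        simp
        omega
      · simp
        omega
    · apply Prod.ext
      · apply Fin.ext
        simp
        omega
      · simp
        omega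
  right_inv := by
    intro y
    apply Fin.ext
    simp only [decide_eq_true_eq]
    split_ifs <;> omega

theorem tref_false (k : ℕ) (c : Fin (k * 3)) :
    (trefoils k (c, false) : ℕ) = 6 * ((c : ℕ) / 3) + (c : ℕ) % 3 := rfl

theorem tref_true (k : ℕ) (c : Fin (k * 3)) :
    (trefoils k (c, true) : ℕ) = 6 * ((c : ℕ) / 3) + 3 + (c : ℕ) % 3 := rfl

theorem tref_crosses (k : ℕ) (i j : Fin (k * 3)) :
    Crosses (trefoils k) i j ↔ (i : ℕ) / 3 = (j : ℕ) / 3 ∧ i ≠ j := by
  unfold Crosses Pool.Agent.H832R2.JR.Btw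
  rw [tref_false, tref_false, tref_true, tref_true, Ne, Fin.ext_iff]
  have := i.2
  have := j.2
  omega

theorem tref_all (k : ℕ) (i : Fin (k * 3)) : ∃ j, Crosses (trefoils k) i j := by
  have := i.2
  refine ⟨⟨3 * ((i : ℕ) / 3) + ((i : ℕ) + 1) % 3, by omega⟩, (tref_crosses k _ _).2 ⟨?_, ?_⟩⟩
  · simp only
    omega
  · rw [Ne, Fin.ext_iff]
    simp only
    omega

theorem tref_plane (k : ℕ) : PlaneCriterion (trefoils k) := by
  simp only [PlaneCriterion, tref_crosses]
  have key : ∀ i : Fin (k * 3), ∃ a b : Fin (k * 3),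
      (a : ℕ) = 3 * ((i : ℕ) / 3) + ((i : ℕ) + 1) % 3 ∧
      (b : ℕ) = 3 * ((i : ℕ) / 3) + ((i : ℕ) + 2) % 3 := by
    intro i
    have := i.2
    exact ⟨⟨3 * ((i : ℕ) / 3) + ((i : ℕ) + 1) % 3, by omega⟩,
      ⟨3 * ((i : ℕ) / 3) + ((i : ℕ) + 2) % 3, by omega⟩, rfl, rfl⟩
  refine ⟨?_, ?_, fun _ => false, ?_⟩
  · intro i
    obtain ⟨a, b, ha, hb⟩ := key i
    rw [card_sub _ {a, b} (by
      intro j
      rw [mem_insert, mem_singleton, Ne, Fin.ext_iff, Fin.ext_iff, Fin.ext_iff]
      omega)]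
    rw [card_pair (by rw [Ne, Fin.ext_iff]; omega)]
    exact ⟨1, rfl⟩
  · intro i j h h'
    rw [card_sub _ ∅ (by
      intro l
      simp only [notMem_empty, iff_false]
      rintro ⟨⟨h1, _⟩, h2, _⟩
      exact h' ⟨h1.trans h2.symm, h⟩)]
    exact ⟨0, rfl⟩
  · rintro i j ⟨hij, hne⟩
    rw [Ne, Fin.ext_iff] at hne
    have h3 : ∃ c : Fin (k * 3), (c : ℕ) / 3 = (i : ℕ) / 3 ∧ (c : ℕ) ≠ i ∧ (c : ℕ) ≠ j := by
      obtain ⟨a, b, ha, hb⟩ := key i
      by_cases h : (a : ℕ) = j
      · exact ⟨b, by omega, by omega, by omega⟩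
      · exact ⟨a, by omega, by omega, h⟩
    obtain ⟨c, hc1, hc2, hc3⟩ := h3
    rw [card_sub _ {c} (by
      intro l
      rw [mem_singleton, Ne, Ne, Fin.ext_iff, Fin.ext_iff, Fin.ext_iff]
      omega)]
    simp

theorem tref_Q (k : ℕ) (w : Fin (k * 3) → Bool) :
    ∃ m ≤ k, Q (adjm (trefoils k)) w = 8 * (m : ℤ) - 2 * k := by
  classical
  set a : Fin k → Fin 3 → Bool := fun t r => w (finProdFinEquiv (t, r)) with ha
  refine ⟨(univ.filter fun t => a t 0 = a t 1 ∧ a t 1 = a t 2).card, ?_, ?_⟩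
  · have := card_le_univ (univ.filter fun t => a t 0 = a t 1 ∧ a t 1 = a t 2)
    rwa [Fintype.card_fin] at this
  · have hcr : ∀ (t t' : Fin k) (r r' : Fin 3),
        Crosses (trefoils k) (finProdFinEquiv (t, r)) (finProdFinEquiv (t', r')) ↔
          t = t' ∧ r ≠ r' := by
      intro t t' r r'
      rw [tref_crosses]
      have e1 : ∀ (t : Fin k) (r : Fin 3), ((finProdFinEquiv (t, r) : Fin (k * 3)) : ℕ) =
          r + 3 * t := fun t r => rfl
      rw [Ne, Fin.ext_iff, e1, e1]
      have := r.2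
      have := r'.2
      constructor
      · rintro ⟨h1, h2⟩
        have h3 : (t : ℕ) = t' := by omega
        refine ⟨Fin.ext h3, fun h => h2 ?_⟩
        rw [h3, h]
      · rintro ⟨rfl, h2⟩
        refine ⟨by omega, fun h => h2 (Fin.ext ?_)⟩
        omega
    have h1 : Q (adjm (trefoils k)) w = ∑ t : Fin k, ∑ r : Fin 3, ∑ t' : Fin k, ∑ r' : Fin 3,
        (if t = t' ∧ r ≠ r' then (1 : ℤ) else 0) * (sgn (a t r) * sgn (a t' r')) := by
      unfold Q adjm
      rw [← finProdFinEquiv.sum_comp, Fintype.sum_prod_type]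
      refine sum_congr rfl fun t _ => sum_congr rfl fun r _ => ?_
      rw [← finProdFinEquiv.sum_comp, Fintype.sum_prod_type]
      refine sum_congr rfl fun t' _ => sum_congr rfl fun r' _ => ?_
      by_cases h : t = t' ∧ r ≠ r'
      · rw [if_pos h, if_pos ((hcr t t' r r').2 h)]
      · rw [if_neg h, if_neg fun h' => h ((hcr t t' r r').1 h')]
    have h2 : ∀ (t : Fin k) (r : Fin 3), ∑ t' : Fin k, ∑ r' : Fin 3,
        (if t = t' ∧ r ≠ r' then (1 : ℤ) else 0) * (sgn (a t r) * sgn (a t' r')) =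
        ∑ r' : Fin 3, (if r ≠ r' then (1 : ℤ) else 0) * (sgn (a t r) * sgn (a t r')) := by
      intro t r
      rw [sum_eq_single t]
      · simp
      · intro t' _ h
        refine sum_eq_zero fun r' _ => ?_
        rw [if_neg fun h' => h h'.1.symm, zero_mul]
      · intro h
        exact absurd (mem_univ t) h
    have h3 : ∀ x : Fin 3 → Bool, ∑ r : Fin 3, ∑ r' : Fin 3,
        (if r ≠ r' then (1 : ℤ) else 0) * (sgn (x r) * sgn (x r')) =
        8 * (if x 0 = x 1 ∧ x 1 = x 2 then 1 else 0) - 2 := by decide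
    rw [h1]
    simp only [h2, h3, sum_sub_distrib, ← mul_sum, sum_const, card_univ, Fintype.card_fin]
    rw [← sum_filter, sum_const]
    simp
    ring

theorem tref_values (k : ℕ) (hk : 0 < k) :
    Nat.card (Set.range (mom (trefoils k))) = k + 1 := by
  apply le_antisymm
  · obtain ⟨K, hK⟩ := second_moment (trefoils k) ⟨0, by omega⟩
    refine card_range_le _ k (fun m => K - 12 * (8 * (m : ℤ) - 2 * k)) ?_
    intro w
    obtain ⟨m, hm, h1⟩ := tref_Q k w
    refine ⟨m, hm, ?_⟩
    rw [← h1]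
    exact hK w
  · obtain ⟨T, hT, hT'⟩ := spectrum (trefoils k)
    refine card_range_ge _ _ T (le_trans ?_ hT) hT'
    have := halves_third (trefoils k) (tref_all k)
    omega

end Pool.Agent.Q179.SP
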